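import Mathlib

set_option autoImplicit false

namespace Pool.Agent.Lib_helper12.G56

open Matrix Finset
open scoped ComplexOrder

/-- third divided difference of `x ↦ (x)_+ ^ 2` at four nonzero nodes -/
noncomputable def q4 (a b c d : ℝ) : ℝ :=
  if 0 < a then
    if 0 < b then
      if 0 < c then
        if 0 < d then 0
        else d ^ 2 / ((a - d) * (b - d) * (c - d))
      else
        if 0 < d then c ^ 2 / ((a - c) * (b - c) * (d - c))
        else (a * b * (-c - d) + c * d * (a + b)) / ((a - c) * (a - d) * (b - c) * (b - d))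
    else
      if 0 < c then
        if 0 < d then b ^ 2 / ((a - b) * (c - b) * (d - b))
        else (a * c * (-b - d) + b * d * (a + c)) / ((a - b) * (a - d) * (c - b) * (c - d))
      else
        if 0 < d then (a * d * (-b - c) + b * c * (a + d)) / ((a - b) * (a - c) * (d - b) * (d - c))
        else a ^ 2 / ((a - b) * (a - c) * (a - d))
  else
    if 0 < b then
      if 0 < c then
        if 0 < d then a ^ 2 / ((b - a) * (c - a) * (d - a))
        else (b * c * (-a - d) + a * d * (b + c)) / ((b - a) * (b - d) * (c - a) * (c - d))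
      else
        if 0 < d then (b * d * (-a - c) + a * c * (b + d)) / ((b - a) * (b - c) * (d - a) * (d - c))
        else b ^ 2 / ((b - a) * (b - c) * (b - d))
    else
      if 0 < c then
        if 0 < d then (c * d * (-a - b) + a * b * (c + d)) / ((c - a) * (c - b) * (d - a) * (d - b))
        else c ^ 2 / ((c - a) * (c - b) * (c - d))
      else
        if 0 < d then d ^ 2 / ((d - a) * (d - b) * (d - c))
        else 0

/-- second divided difference of `x ↦ (x)_+` at three nonzero nodes -/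
noncomputable def q3 (a b c : ℝ) : ℝ :=
  if 0 < a then
    if 0 < b then
      if 0 < c then 0 else (-c) / ((a - c) * (b - c))
    else
      if 0 < c then (-b) / ((a - b) * (c - b)) else a / ((a - b) * (a - c))
  else
    if 0 < b then
      if 0 < c then (-a) / ((b - a) * (c - a)) else b / ((b - a) * (b - c))
    else
      if 0 < c then c / ((c - a) * (c - b)) else 0

/-- the outer weight -/
noncomputable def cw (a c : ℝ) : ℝ :=
  if 0 < a then (if 0 < c then a else 1 / (a - c)) else (if 0 < c then 0 else -a)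

/-- the inner weight -/
noncomputable def fw (a c b : ℝ) : ℝ :=
  if 0 < a then
    (if 0 < c then (if 0 < b then 0 else (-b) / ((a - b) * (c - b)))
      else (if 0 < b then (-c) / (b - c) else a / (a - b)))
  else (if 0 < c then 0 else (if 0 < b then b / ((b - a) * (b - c)) else 0))

lemma cw_nonneg {a c : ℝ} (ha : a ≠ 0) (hc : c ≠ 0) : 0 ≤ cw a c := by
  unfold cw
  split_ifs with h1 h2 h2
  · exact h1.le
  · have : c < 0 := lt_of_le_of_ne (not_lt.1 h2) hc
    have : 0 < a - c := by linarith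
    positivity
  · exact le_rfl
  · have := not_lt.1 h1
    linarith

lemma q4_eq {a b c d : ℝ} (ha : a ≠ 0) (hb : b ≠ 0) (hc : c ≠ 0) (hd : d ≠ 0) :
    q4 a b c d = cw a c * (fw a c b * fw a c d) + cw b d * (fw b d c * fw b d a)
      + cw c a * (fw c a d * fw c a b) + cw d b * (fw d b a * fw d b c) := by
  have key : ∀ {t : ℝ}, t ≠ 0 → ¬ 0 < t → t < 0 := fun h1 h2 => lt_of_le_of_ne (not_lt.1 h2) h1
  have key2 : ∀ {s t : ℝ}, 0 < s → t < 0 → s - t ≠ 0 := fun h1 h2 =>
    (sub_pos.2 (lt_trans h2 h1)).ne'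
  by_cases h1 : 0 < a <;> by_cases h2 : 0 < b <;> by_cases h3 : 0 < c <;> by_cases h4 : 0 < d <;>
    simp only [q4, cw, fw, h1, h2, h3, h4, if_true, if_false, ↓reduceIte] <;>
    (try replace h1 := key ha h1) <;> (try replace h2 := key hb h2) <;>
    (try replace h3 := key hc h3) <;> (try replace h4 := key hd h4) <;>
    (try have eab := key2 h1 h2) <;>
    (try have eac := key2 h1 h3) <;>
    (try have ead := key2 h1 h4) <;>
    (try have eba := key2 h2 h1) <;>
    (try have ebc := key2 h2 h3) <;>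
    (try have ebd := key2 h2 h4) <;>
    (try have eca := key2 h3 h1) <;>
    (try have ecb := key2 h3 h2) <;>
    (try have ecd := key2 h3 h4) <;>
    (try have eda := key2 h4 h1) <;>
    (try have edb := key2 h4 h2) <;>
    (try have edc := key2 h4 h3) <;>
    first
      | ring1
      | (field_simp; ring1)
      | (field_simp)

theorem hinge4 {ι : Type} [Fintype ι] (x : ι → ℝ) (h0 : ∀ i, x i ≠ 0)
    (N : Matrix ι ι ℂ) (hN : N.IsHermitian) :
    0 ≤ (∑ i, ∑ j, ∑ k, ∑ l, N i j * N j k * N k l * N l i *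
      (q4 (x i) (x j) (x k) (x l) : ℂ)).re := by
  have hc : ∀ i j, star (N i j) = N j i := fun i j => by
    conv_rhs => rw [← hN]
    rfl
  -- the basic sum
  set S : ℂ := ∑ i, ∑ j, ∑ k, ∑ l, N i j * N j k * N k l * N l i *
    ((cw (x i) (x k) * (fw (x i) (x k) (x j) * fw (x i) (x k) (x l)) : ℝ) : ℂ) with hS
  have hpos : 0 ≤ S.re := by
    have : S = ∑ i, ∑ k, ((cw (x i) (x k) : ℝ) : ℂ) *
        ((∑ j, N i j * N j k * (fw (x i) (x k) (x j) : ℂ)) *
          star (∑ j, N i j * N j k * (fw (x i) (x k) (x j) : ℂ))) := by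
      rw [hS]
      refine Finset.sum_congr rfl fun i _ => ?_
      rw [Finset.sum_comm]
      refine Finset.sum_congr rfl fun k _ => ?_
      rw [star_sum, Finset.sum_mul_sum, Finset.mul_sum]
      refine Finset.sum_congr rfl fun j _ => ?_
      rw [Finset.mul_sum]
      refine Finset.sum_congr rfl fun l _ => ?_
      rw [star_mul', star_mul', hc, hc]
      simp only [Complex.star_def, Complex.conj_ofReal]
      push_cast
      ring
    rw [this, Complex.re_sum]
    refine Finset.sum_nonneg fun i _ => ?_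
    rw [Complex.re_sum]
    refine Finset.sum_nonneg fun k _ => ?_
    rw [Complex.star_def, Complex.mul_conj, ← Complex.ofReal_mul, Complex.ofReal_re]
    exact mul_nonneg (cw_nonneg (h0 i) (h0 k)) (Complex.normSq_nonneg _)
  -- cyclic shifts
  have cyc : ∀ F : ι → ι → ι → ι → ℂ, ∑ i, ∑ j, ∑ k, ∑ l, F i j k l
      = ∑ i, ∑ j, ∑ k, ∑ l, F j k l i := by
    intro F
    have e1 : ∑ i, ∑ j, ∑ k, ∑ l, F j k l i = ∑ j, ∑ k, ∑ l, ∑ i, F j k l i := by
      rw [Finset.sum_comm]
      refine Finset.sum_congr rfl fun j _ => ?_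
      rw [Finset.sum_comm]
      refine Finset.sum_congr rfl fun k _ => ?_
      rw [Finset.sum_comm]
    rw [e1]
  set H : ι → ι → ι → ι → ℂ := fun i j k l => N i j * N j k * N k l * N l i *
    ((cw (x i) (x k) * (fw (x i) (x k) (x j) * fw (x i) (x k) (x l)) : ℝ) : ℂ) with hH
  have s1 : S = ∑ i, ∑ j, ∑ k, ∑ l, H j k l i := cyc H
  have s2 : S = ∑ i, ∑ j, ∑ k, ∑ l, H k l i j := by
    rw [s1, cyc (fun i j k l => H j k l i)]
  have s3 : S = ∑ i, ∑ j, ∑ k, ∑ l, H l i j k := by
    rw [s2, cyc (fun i j k l => H k l i j)]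
  have tot : ∑ i, ∑ j, ∑ k, ∑ l, N i j * N j k * N k l * N l i *
      (q4 (x i) (x j) (x k) (x l) : ℂ) = S + S + S + S := by
    conv_rhs => rw [hS]
    conv_rhs => enter [1, 1, 2]; rw [← hS, s1]
    conv_rhs => enter [1, 2]; rw [← hS, s2]
    conv_rhs => enter [2]; rw [← hS, s3]
    simp only [← Finset.sum_add_distrib]
    refine Finset.sum_congr rfl fun i _ => Finset.sum_congr rfl fun j _ =>
      Finset.sum_congr rfl fun k _ => Finset.sum_congr rfl fun l _ => ?_
    rw [q4_eq (h0 i) (h0 j) (h0 k) (h0 l)]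
    simp only [hH]
    push_cast
    ring
  rw [tot]
  simp only [Complex.add_re]
  linarith

/-- outer weight for three nodes -/
noncomputable def cw3 (c : ℝ) : ℝ := |c|

/-- inner weight for three nodes -/
noncomputable def fw3 (c b : ℝ) : ℝ :=
  if 0 < c then (if 0 < b then 0 else 1 / (c - b)) else (if 0 < b then 1 / (b - c) else 0)

lemma q3_eq {a b c : ℝ} (ha : a ≠ 0) (hb : b ≠ 0) (hc : c ≠ 0) :
    q3 a b c = cw3 c * (fw3 c a * fw3 c b) + cw3 a * (fw3 a b * fw3 a c)
      + cw3 b * (fw3 b c * fw3 b a) := by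
  have key : ∀ {t : ℝ}, t ≠ 0 → ¬ 0 < t → t < 0 := fun h1 h2 => lt_of_le_of_ne (not_lt.1 h2) h1
  have key2 : ∀ {s t : ℝ}, 0 < s → t < 0 → s - t ≠ 0 := fun h1 h2 =>
    (sub_pos.2 (lt_trans h2 h1)).ne'
  have key3 : ∀ {t : ℝ}, t < 0 → |t| = -t := fun h => abs_of_neg h
  have key4 : ∀ {t : ℝ}, 0 < t → |t| = t := fun h => abs_of_pos h
  by_cases h1 : 0 < a <;> by_cases h2 : 0 < b <;> by_cases h3 : 0 < c <;>
    simp only [q3, cw3, fw3, h1, h2, h3, if_true, if_false] <;>
    (try replace h1 := key ha h1) <;> (try replace h2 := key hb h2) <;>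
    (try replace h3 := key hc h3) <;>
    (try rw [key3 h1]) <;> (try rw [key3 h2]) <;> (try rw [key3 h3]) <;>
    (try rw [key4 h1]) <;> (try rw [key4 h2]) <;> (try rw [key4 h3]) <;>
    (try have eab := key2 h1 h2) <;> (try have eac := key2 h1 h3) <;>
    (try have eba := key2 h2 h1) <;> (try have ebc := key2 h2 h3) <;>
    (try have eca := key2 h3 h1) <;> (try have ecb := key2 h3 h2) <;>
    first
      | ring1
      | (field_simp; ring1)
      | (field_simp)

theorem hinge3 {ι : Type} [Fintype ι] (x : ι → ℝ) (h0 : ∀ i, x i ≠ 0)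
    (N : Matrix ι ι ℂ) (hN : N.PosSemidef) :
    0 ≤ (∑ i, ∑ j, ∑ k, N i j * N j k * N k i * (q3 (x i) (x j) (x k) : ℂ)).re := by
  have hc : ∀ i j, star (N i j) = N j i := fun i j => by
    conv_rhs => rw [← hN.1]
    rfl
  set S : ℂ := ∑ i, ∑ j, ∑ k, N i j * N j k * N k i *
    ((cw3 (x k) * (fw3 (x k) (x i) * fw3 (x k) (x j)) : ℝ) : ℂ) with hS
  have hpos : 0 ≤ S.re := by
    have : S = ∑ k, ((cw3 (x k) : ℝ) : ℂ) *
        (star (fun j => N j k * (fw3 (x k) (x j) : ℂ)) ⬝ᵥ
          (N *ᵥ (fun j => N j k * (fw3 (x k) (x j) : ℂ)))) := by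
      rw [hS]
      have e1 : ∑ i, ∑ j, ∑ k, N i j * N j k * N k i *
          ((cw3 (x k) * (fw3 (x k) (x i) * fw3 (x k) (x j)) : ℝ) : ℂ)
          = ∑ k, ∑ i, ∑ j, N i j * N j k * N k i *
          ((cw3 (x k) * (fw3 (x k) (x i) * fw3 (x k) (x j)) : ℝ) : ℂ) := by
        rw [Finset.sum_comm]
        have : ∀ i, ∑ j, ∑ k, N i j * N j k * N k i *
          ((cw3 (x k) * (fw3 (x k) (x i) * fw3 (x k) (x j)) : ℝ) : ℂ) = ∑ k, ∑ j, N i j * N j k * N k i *
          ((cw3 (x k) * (fw3 (x k) (x i) * fw3 (x k) (x j)) : ℝ) : ℂ) := fun i => Finset.sum_comm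
        rw [Finset.sum_comm]
        simp only [this]
        rw [Finset.sum_comm]
      rw [e1]
      refine Finset.sum_congr rfl fun k _ => ?_
      simp only [dotProduct, mulVec, Finset.mul_sum, Pi.star_apply]
      refine Finset.sum_congr rfl fun i _ => Finset.sum_congr rfl fun j _ => ?_
      rw [star_mul', hc]
      simp only [Complex.star_def, Complex.conj_ofReal]
      push_cast
      ring
    rw [this, Complex.re_sum]
    refine Finset.sum_nonneg fun k _ => ?_
    rw [Complex.re_ofReal_mul]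
    exact mul_nonneg (abs_nonneg _) (hN.re_dotProduct_nonneg _)
  have cyc : ∀ F : ι → ι → ι → ℂ, ∑ i, ∑ j, ∑ k, F i j k
      = ∑ i, ∑ j, ∑ k, F j k i := by
    intro F
    have e1 : ∑ i, ∑ j, ∑ k, F j k i = ∑ j, ∑ k, ∑ i, F j k i := by
      rw [Finset.sum_comm]
      refine Finset.sum_congr rfl fun j _ => ?_
      rw [Finset.sum_comm]
    rw [e1]
  set H : ι → ι → ι → ℂ := fun i j k => N i j * N j k * N k i *
    ((cw3 (x k) * (fw3 (x k) (x i) * fw3 (x k) (x j)) : ℝ) : ℂ) with hH
  have s1 : S = ∑ i, ∑ j, ∑ k, H j k i := cyc H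
  have s2 : S = ∑ i, ∑ j, ∑ k, H k i j := by
    rw [s1, cyc (fun i j k => H j k i)]
  have tot : ∑ i, ∑ j, ∑ k, N i j * N j k * N k i * (q3 (x i) (x j) (x k) : ℂ) = S + S + S := by
    conv_rhs => enter [1, 2]; rw [s1]
    conv_rhs => enter [2]; rw [s2]
    conv_rhs => enter [1, 1]; rw [hS]
    simp only [← Finset.sum_add_distrib]
    refine Finset.sum_congr rfl fun i _ => Finset.sum_congr rfl fun j _ =>
      Finset.sum_congr rfl fun k _ => ?_
    rw [q3_eq (h0 i) (h0 j) (h0 k)]
    simp only [hH]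
    push_cast
    ring
  rw [tot]
  simp only [Complex.add_re]
  linarith

end Pool.Agent.Lib_helper12.G56
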